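import Mathlib

namespace Pool.Agent.H.MP_cd9307_al

/-- terms in two binary operation symbols -/
inductive Tm (X : Type) : Type
  | var : X → Tm X
  | add : Tm X → Tm X → Tm X
  | mul : Tm X → Tm X → Tm X

/-- value of a term in the algebra with operations p and m -/
def eval {X B : Type} (p m : B → B → B) (φ : X → B) : Tm X → B
  | Tm.var x => φ x
  | Tm.add u v => p (eval p m φ u) (eval p m φ v)
  | Tm.mul u v => m (eval p m φ u) (eval p m φ v)

/-- the identity holds in the algebra -/
def Sat {B : Type} (p m : B → B → B) (e : Tm ℕ × Tm ℕ) : Prop :=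
  ∀ φ : ℕ → B, eval p m φ e.1 = eval p m φ e.2

/-- the class of models of all identities of the algebra is defined by finitely many identities -/
def FinBased {S : Type} (p m : S → S → S) : Prop :=
  ∃ E : Set (Tm ℕ × Tm ℕ), E.Finite ∧ ∀ (B : Type) (p' m' : B → B → B),
    (∀ e ∈ E, Sat p' m' e) ↔ (∀ e, Sat p m e → Sat p' m' e)

end Pool.Agent.H.MP_cd9307_al
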