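import Mathlib
import Pool.Agent.H.MP_cd9307_al.Defs

namespace Pool.Agent.H.MP_cd9307_al

variable {X Y B : Type}

def occ (x : X) : Tm X → Prop
  | Tm.var y => x = y
  | Tm.add u v => occ x u ∨ occ x v
  | Tm.mul u v => occ x u ∨ occ x v

abbrev bind (σ : X → Tm Y) : Tm X → Tm Y := eval Tm.add Tm.mul σ

lemma eval_bind (p m : B → B → B) (φ : Y → B) (σ : X → Tm Y) (u : Tm X) :
    eval p m φ (bind σ u) = eval p m (fun x => eval p m φ (σ x)) u := by
  induction u with
  | var x => rfl
  | add u v ihu ihv => simp only [eval, ihu, ihv]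
  | mul u v ihu ihv => simp only [eval, ihu, ihv]

lemma bind_var (u : Tm X) : bind Tm.var u = u := by
  induction u with
  | var x => rfl
  | add u v ihu ihv => simp only [eval, ihu, ihv]
  | mul u v ihu ihv => simp only [eval, ihu, ihv]

lemma occ_bind (σ : X → Tm Y) (y : Y) (u : Tm X) : occ y (bind σ u) ↔ ∃ x, occ x u ∧ occ y (σ x) := by
  induction u with
  | var x => simp [eval, occ]
  | add u v ihu ihv => simp only [eval, occ, ihu, ihv, or_and_right, exists_or]
  | mul u v ihu ihv => simp only [eval, occ, ihu, ihv, or_and_right, exists_or]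

lemma eval_congr (p m : B → B → B) {φ ψ : X → B} (u : Tm X) (h : ∀ x, occ x u → φ x = ψ x) :
    eval p m φ u = eval p m ψ u := by
  induction u with
  | var x => exact h x rfl
  | add u v ihu ihv =>
    simp only [eval]; rw [ihu fun x hx => h x (Or.inl hx), ihv fun x hx => h x (Or.inr hx)]
  | mul u v ihu ihv =>
    simp only [eval]; rw [ihu fun x hx => h x (Or.inl hx), ihv fun x hx => h x (Or.inr hx)]

lemma exists_occ (u : Tm X) : ∃ x, occ x u := by
  induction u with
  | var x => exact ⟨x, rfl⟩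
  | add u v ihu _ => obtain ⟨x, hx⟩ := ihu; exact ⟨x, Or.inl hx⟩
  | mul u v ihu _ => obtain ⟨x, hx⟩ := ihu; exact ⟨x, Or.inl hx⟩

def Reg (u v : Tm X) : Prop := ∀ x, occ x u ↔ occ x v
def SatX (p m : B → B → B) (u v : Tm X) : Prop := ∀ φ : X → B, eval p m φ u = eval p m φ v

lemma eval_none (p m : B → B → B) (φ : X → Option B) (u : Tm X) :
    eval (Option.map₂ p) (Option.map₂ m) φ u = none ↔ ∃ x, occ x u ∧ φ x = none := by
  induction u with
  | var x => simp [eval, occ]
  | add u v ihu ihv =>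
    simp only [eval, occ, Option.map₂_eq_none_iff, ihu, ihv, or_and_right, exists_or]
  | mul u v ihu ihv =>
    simp only [eval, occ, Option.map₂_eq_none_iff, ihu, ihv, or_and_right, exists_or]

lemma eval_some (p m : B → B → B) (ψ : X → B) (u : Tm X) :
    eval (Option.map₂ p) (Option.map₂ m) (fun x => some (ψ x)) u = some (eval p m ψ u) := by
  induction u with
  | var x => rfl
  | add u v ihu ihv => simp only [eval, ihu, ihv]; rfl
  | mul u v ihu ihv => simp only [eval, ihu, ihv]; rfl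

lemma inf_iff [Nonempty B] (p m : B → B → B) (u v : Tm X) :
    SatX (Option.map₂ p) (Option.map₂ m) u v ↔ Reg u v ∧ SatX p m u v := by
  classical
  obtain ⟨d⟩ := ‹Nonempty B›
  constructor
  · intro h
    refine ⟨fun x => ?_, fun ψ => ?_⟩
    · have key : ∀ w : Tm X, eval (Option.map₂ p) (Option.map₂ m)
          (fun y => if y = x then none else some d) w = none ↔ occ x w := by
        intro w
        rw [eval_none]
        simp
      rw [← key, ← key, h]
    · have := h (fun x => some (ψ x))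
      rw [eval_some, eval_some] at this
      exact Option.some.inj this
  · rintro ⟨hr, hs⟩ φ
    by_cases h : ∃ x, occ x u ∧ φ x = none
    · rw [(eval_none p m φ u).2 h, (eval_none p m φ v).2 (by simpa only [hr _] using h)]
    · push Not at h
      have e : ∀ x, occ x u → φ x = some ((φ x).getD d) := by
        intro x hx
        obtain ⟨c, hc⟩ := Option.ne_none_iff_exists'.1 (h x hx)
        rw [hc]; rfl
      rw [eval_congr _ _ u e, eval_congr _ _ v fun x hx => e x ((hr x).2 hx), eval_some, eval_some,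
        hs]

abbrev V : Type := ℕ ⊕ ℕ ⊕ Fin 7

def tr (e : Tm V × Tm V) : Tm ℕ × Tm ℕ :=
  (bind (fun x => Tm.var (Encodable.encode x)) e.1, bind (fun x => Tm.var (Encodable.encode x)) e.2)

lemma sat_tr (p m : B → B → B) (e : Tm V × Tm V) : Sat p m (tr e) ↔ SatX p m e.1 e.2 := by
  constructor
  · intro h φ
    have := h (Function.extend Encodable.encode φ fun _ => φ (Sum.inl 0))
    simp only [tr, eval_bind, eval, Encodable.encode_injective.extend_apply] at this
    exact this
  · intro h φ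
    simp only [tr, eval_bind, eval]
    exact h _

inductive Der (E : Set (Tm ℕ × Tm ℕ)) : Tm ℕ → Tm ℕ → Prop
  | ax (e) (he : e ∈ E) (σ : ℕ → Tm ℕ) : Der E (bind σ e.1) (bind σ e.2)
  | refl (u) : Der E u u
  | symm {u v} : Der E u v → Der E v u
  | trans {u v w} : Der E u v → Der E v w → Der E u w
  | addL {u v} (w) : Der E u v → Der E (Tm.add u w) (Tm.add v w)
  | addR {u v} (w) : Der E u v → Der E (Tm.add w u) (Tm.add w v)
  | mulL {u v} (w) : Der E u v → Der E (Tm.mul u w) (Tm.mul v w)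
  | mulR {u v} (w) : Der E u v → Der E (Tm.mul w u) (Tm.mul w v)

lemma complete (E : Set (Tm ℕ × Tm ℕ)) (e : Tm ℕ × Tm ℕ)
    (h : ∀ (B : Type) (p m : B → B → B), (∀ e ∈ E, Sat p m e) → Sat p m e) : Der E e.1 e.2 := by
  let s : Setoid (Tm ℕ) := ⟨Der E, Der.refl, Der.symm, Der.trans⟩
  let p : Quotient s → Quotient s → Quotient s :=
    Quotient.map₂ Tm.add fun _ _ h1 _ _ h2 => (Der.addL _ h1).trans (Der.addR _ h2)
  let m : Quotient s → Quotient s → Quotient s :=
    Quotient.map₂ Tm.mul fun _ _ h1 _ _ h2 => (Der.mulL _ h1).trans (Der.mulR _ h2)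
  have key : ∀ (σ : ℕ → Tm ℕ) (u : Tm ℕ),
      eval p m (fun n => Quotient.mk s (σ n)) u = Quotient.mk s (bind σ u) := by
    intro σ u
    induction u with
    | var x => rfl
    | add u v ihu ihv => simp only [eval, ihu, ihv]; rfl
    | mul u v ihu ihv => simp only [eval, ihu, ihv]; rfl
  have := h (Quotient s) p m (fun e he φ => by
    choose σ hσ using fun n => Quotient.exists_rep (φ n)
    have : φ = fun n => Quotient.mk s (σ n) := funext fun n => (hσ n).symm
    rw [this, key, key]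
    exact Quotient.sound (Der.ax e he σ)) (fun n => Quotient.mk s (Tm.var n))
  rw [key, key, bind_var, bind_var] at this
  exact Quotient.exact this

def ctx (m : B → B → B) (a b : Option B) (w : B) : B :=
  a.elim (b.elim w (m w)) fun a => m a (b.elim w (m w))

def HF (p m : B → B → B) (h : Tm (Option ℕ)) (α : ℕ → B) (a b : Option B) (y : B) : B :=
  ctx m a b (eval p m (fun o => o.elim y α) h)

lemma eval_ctx (p m : B → B → B) (φ : X → B) (a b : Option (Tm X)) (w : Tm X) :
    eval p m φ (ctx Tm.mul a b w) =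
      ctx m (a.map (eval p m φ)) (b.map (eval p m φ)) (eval p m φ w) := by
  cases a <;> cases b <;> rfl

lemma eval_HF (p m : B → B → B) (φ : X → B) (h : Tm (Option ℕ)) (α : ℕ → Tm X)
    (a b : Option (Tm X)) (y : Tm X) :
    eval p m φ (HF Tm.add Tm.mul h α a b y) = HF p m h (fun n => eval p m φ (α n))
      (a.map (eval p m φ)) (b.map (eval p m φ)) (eval p m φ y) := by
  rw [HF, eval_ctx, eval_bind, HF]
  congr 2
  funext o; cases o <;> rfl

lemma occ_HF (h : Tm (Option ℕ)) (hn : occ none h) (α : ℕ → Tm X) (a b : Option (Tm X)) (x : X) :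
    ∃ P : Prop, ∀ y, occ x (HF Tm.add Tm.mul h α a b y) ↔ P ∨ occ x y := by
  have key : ∀ y, occ x (bind (fun o : Option ℕ => o.elim y α) h) ↔
      (∃ n, occ (some n) h ∧ occ x (α n)) ∨ occ x y := by
    intro y
    rw [occ_bind]
    constructor
    · rintro ⟨_ | n, h1, h2⟩
      · exact Or.inr h2
      · exact Or.inl ⟨n, h1, h2⟩
    · rintro (⟨n, h1, h2⟩ | h2)
      · exact ⟨some n, h1, h2⟩
      · exact ⟨none, hn, h2⟩
  rcases a with _ | a <;> rcases b with _ | b
  · exact ⟨_, key⟩
  · exact ⟨occ x b ∨ ∃ n, occ (some n) h ∧ occ x (α n), fun y => by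
      simp only [HF, ctx, Option.elim_none, Option.elim_some, occ]; rw [key]; grind⟩
  · exact ⟨occ x a ∨ ∃ n, occ (some n) h ∧ occ x (α n), fun y => by
      simp only [HF, ctx, Option.elim_none, Option.elim_some, occ]; rw [key]; grind⟩
  · exact ⟨occ x a ∨ occ x b ∨ ∃ n, occ (some n) h ∧ occ x (α n), fun y => by
      simp only [HF, ctx, Option.elim_none, Option.elim_some, occ]; rw [key]; grind⟩

section S
variable {S : Type} [AddCommSemigroup S] [Semigroup S] [LeftDistribClass S] [RightDistribClass S]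

abbrev ev (φ : X → S) : Tm X → S := eval (· + ·) (· * ·) φ

lemma double (r : Tm (Option ℕ)) (hn : occ none r) : ∃ g : Tm (Option ℕ), occ none g ∧
    (∀ o, occ o g → occ o r) ∧ ∀ (α : ℕ → S) (y : S),
      ev (fun o => o.elim (y + y) α) r = ev (fun o => o.elim y α) r + ev (fun o => o.elim y α) g := by
  have hno : ∀ r : Tm (Option ℕ), ¬ occ none r → ∀ (α : ℕ → S) (y : S),
      ev (fun o => o.elim (y + y) α) r = ev (fun o => o.elim y α) r := by
    intro r hr α y
    apply eval_congr
    rintro (_ | n) hx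
    · exact absurd hx hr
    · rfl
  induction r with
  | var o =>
    have : none = o := hn
    subst this
    exact ⟨Tm.var none, rfl, fun o h => h, fun α y => rfl⟩
  | add u v ihu ihv =>
    by_cases hu : occ none u <;> by_cases hv : occ none v
    · obtain ⟨g, g1, g2, g3⟩ := ihu hu
      obtain ⟨k, k1, k2, k3⟩ := ihv hv
      refine ⟨Tm.add g k, Or.inl g1, fun o h => h.imp (g2 o) (k2 o), fun α y => ?_⟩
      simp only [eval, g3, k3]; ac_rfl
    · obtain ⟨g, g1, g2, g3⟩ := ihu hu
      refine ⟨g, g1, fun o h => Or.inl (g2 o h), fun α y => ?_⟩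
      simp only [eval, g3, hno v hv]; exact add_right_comm _ _ _
    · obtain ⟨k, k1, k2, k3⟩ := ihv hv
      refine ⟨k, k1, fun o h => Or.inr (k2 o h), fun α y => ?_⟩
      simp only [eval, k3, hno u hu]; exact (add_assoc _ _ _).symm
    · exact absurd hn (by rintro (h | h) <;> contradiction)
  | mul u v ihu ihv =>
    by_cases hu : occ none u <;> by_cases hv : occ none v
    · obtain ⟨g, g1, g2, g3⟩ := ihu hu
      obtain ⟨k, k1, k2, k3⟩ := ihv hv
      refine ⟨Tm.add (Tm.mul g v) (Tm.add (Tm.mul u k) (Tm.mul g k)), Or.inl (Or.inl g1), ?_,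
        fun α y => ?_⟩
      · rintro o ((h | h) | (h | h) | (h | h))
        exacts [Or.inl (g2 o h), Or.inr h, Or.inl h, Or.inr (k2 o h), Or.inl (g2 o h),
          Or.inr (k2 o h)]
      · simp only [eval, g3, k3, mul_add, add_mul]; ac_rfl
    · obtain ⟨g, g1, g2, g3⟩ := ihu hu
      refine ⟨Tm.mul g v, Or.inl g1, fun o h => h.imp (g2 o) id, fun α y => ?_⟩
      simp only [eval, g3, hno v hv, add_mul]
    · obtain ⟨k, k1, k2, k3⟩ := ihv hv
      refine ⟨Tm.mul u k, Or.inr k1, fun o h => h.imp id (k2 o), fun α y => ?_⟩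
      simp only [eval, k3, hno u hu, mul_add]
    · exact absurd hn (by rintro (h | h) <;> contradiction)

variable (S) in
def Good (r : Tm ℕ) (h : Tm (Option ℕ)) : Prop :=
  occ none h ∧ (∀ n, occ (some n) h → occ n r) ∧
    (∀ (α : ℕ → S) y, ev α r + ev (fun o => o.elim y α) h = ev α r) ∧
    ∀ (α : ℕ → S) y y', ev (fun o => o.elim y α) h = ev (fun o => o.elim y' α) h

lemma good_of (r : Tm ℕ) (r' : Tm (Option ℕ)) (hn : occ none r') (hs : ∀ n, occ (some n) r' → occ n r)
    (he : ∀ (α : ℕ → S) y, ev (fun o => o.elim y α) r' = ev α r) : ∃ h, Good S r h := by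
  obtain ⟨g, g1, g2, g3⟩ := double (S := S) r' hn
  have e : ∀ (α : ℕ → S) y, ev (fun o => o.elim y α)
      (bind (fun o : Option ℕ => o.elim r' fun n => Tm.var (some n)) g) =
      ev (fun o => o.elim (ev α r) α) g := by
    intro α y
    rw [ev, eval_bind]
    apply eval_congr
    rintro (_ | n) _
    · exact he α y
    · rfl
  refine ⟨bind (fun o : Option ℕ => o.elim r' fun n => Tm.var (some n)) g, ?_, ?_, ?_, ?_⟩
  · exact (occ_bind _ _ _).2 ⟨none, g1, hn⟩
  · intro n h
    obtain ⟨_ | k, h1, h2⟩ := (occ_bind _ _ _).1 h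
    · exact hs n h2
    · have : some n = some k := h2
      exact hs n (this ▸ g2 _ h1)
  · intro α y
    have := g3 α (ev α r)
    rw [he, he] at this
    rw [e, ← this]
  · intro α y y'
    rw [e, e]

lemma good_both (s t : Tm ℕ) (h : SatX (B := S) (· + ·) (· * ·) s t) (y : ℕ) (hs : occ y s)
    (ht : ¬ occ y t) : (∃ h, Good S s h) ∧ ∃ h, Good S t h := by
  classical
  constructor
  · refine good_of s (bind (fun n => if n = y then Tm.var none else Tm.var (some n)) s)
      ((occ_bind _ _ _).2 ⟨y, hs, by simp [occ]⟩) ?_ ?_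
    · intro n hn
      obtain ⟨k, h1, h2⟩ := (occ_bind _ _ _).1 hn
      split_ifs at h2 with hk
      · cases h2
      · cases h2; exact h1
    · intro α z
      rw [ev, eval_bind, h, ev, h α]
      apply eval_congr
      intro n hn
      have : n ≠ y := fun e => ht (e ▸ hn)
      simp [this, eval]
  · obtain ⟨x, hx⟩ := exists_occ t
    refine good_of t (bind (fun n => if n = y then Tm.var none else if occ n t then Tm.var (some n)
      else Tm.var (some x)) s) ((occ_bind _ _ _).2 ⟨y, hs, by simp [occ]⟩) ?_ ?_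
    · intro n hn
      obtain ⟨k, h1, h2⟩ := (occ_bind _ _ _).1 hn
      split_ifs at h2 with hk hk'
      · cases h2
      · cases h2; exact hk'
      · cases h2; exact hx
    · intro α z
      rw [ev, eval_bind, h]
      apply eval_congr
      intro n hn
      have : n ≠ y := fun e => ht (e ▸ hn)
      simp [this, hn, eval]

/-- properties of a garbage function -/
structure Gar (E : Set (Tm ℕ × Tm ℕ)) (H : S → S) : Prop where
  a : ∀ y z w, H (y * z + w) = H (y + z + w)
  b : ∀ y w, H (y + y + w) = H (y + w)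
  c : ∀ y, H y = H (y + y)
  d : ∀ y z, z + H y = z + H (y + z)
  e : ∀ e ∈ E, ∀ (a b : Option S) (β : ℕ → S) (y : S),
    ctx (· * ·) a b (ev β e.1) + H (y + (ctx (· * ·) a b (ev β e.1) + ctx (· * ·) a b (ev β e.2))) =
    ctx (· * ·) a b (ev β e.2) + H (y + (ctx (· * ·) a b (ev β e.1) + ctx (· * ·) a b (ev β e.2)))

variable {E : Set (Tm ℕ × Tm ℕ)} {H : S → S}

def Ab (H : S → S) (e d : S) : Prop := ∀ z, H (d + e + z) = H (e + z)

lemma Ab.add {e d d' : S} (h : Ab H e d) (h' : Ab H e d') : Ab H e (d + d') := fun z => by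
  rw [← h' z, show d' + e + z = e + (d' + z) by ac_rfl, ← h]; congr 1; ac_rfl

lemma Ab.mul (G : Gar E H) {e d d' : S} (h : Ab H e d) (h' : Ab H e d') : Ab H e (d * d') :=
  fun z => by rw [← (h.add h') z, add_assoc, G.a, add_assoc (d + d')]

lemma Ab.var (G : Gar E H) (φ : ℕ → S) (u : Tm ℕ) (x : ℕ) (hx : occ x u) : Ab H (ev φ u) (φ x) := by
  have hadd : ∀ a b : S, Ab H a (φ x) ∨ Ab H b (φ x) → Ab H (a + b) (φ x) := by
    rintro a b (h | h) z
    · rw [add_assoc a, ← h]; congr 1; ac_rfl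
    · rw [add_comm a, add_assoc b, ← h]; congr 1; ac_rfl
  induction u with
  | var y => cases hx; exact fun z => G.b _ _
  | add u v ihu ihv => exact hadd _ _ (hx.imp ihu ihv)
  | mul u v ihu ihv =>
    intro z
    have := hadd _ _ (hx.imp ihu ihv) z
    change H (φ x + ev φ u * ev φ v + z) = H (ev φ u * ev φ v + z)
    rw [G.a, ← this, show φ x + ev φ u * ev φ v + z = ev φ u * ev φ v + (φ x + z) by ac_rfl, G.a]
    congr 1; ac_rfl

lemma Ab.ev (G : Gar E H) {e : S} (ψ : X → S) (h : ∀ x, Ab H e (ψ x)) (w : Tm X) :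
    Ab H e (ev ψ w) := by
  induction w with
  | var y => exact h y
  | add u v ihu ihv => exact ihu.add ihv
  | mul u v ihu ihv => exact ihu.mul G ihv

lemma Ab.eq (G : Gar E H) {e d : S} (h : Ab H e d) : H e = H (e + d) := by
  rw [G.c, ← h e, show d + e + e = e + e + d by ac_rfl, G.b]

lemma Ab.ctx (G : Gar E H) {e w : S} {a b : Option S} (ha : ∀ x ∈ a, Ab H e x)
    (hb : ∀ x ∈ b, Ab H e x) (hw : Ab H e w) : Ab H e (ctx (· * ·) a b w) := by
  rcases a with _ | a <;> rcases b with _ | b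
  · exact hw
  · exact hw.mul G (hb b rfl)
  · exact (ha a rfl).mul G hw
  · exact (ha a rfl).mul G (hw.mul G (hb b rfl))

lemma ctx_add (a b : Option S) (u v : S) :
    ctx (· * ·) a b (u + v) = ctx (· * ·) a b u + ctx (· * ·) a b v := by
  cases a <;> cases b <;> simp [ctx, mul_add, add_mul]

lemma ctx_mulL (a b : Option S) (u w : S) :
    ctx (· * ·) a b (u * w) = ctx (· * ·) a (some (b.elim w (w * ·))) u := by
  cases a <;> cases b <;> simp [ctx, mul_assoc]

lemma ctx_mulR (a b : Option S) (u w : S) :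
    ctx (· * ·) a b (w * u) = ctx (· * ·) (some (a.elim w (· * w))) b u := by
  cases a <;> cases b <;> simp [ctx, mul_assoc]

lemma step (G : Gar E H) (e : S) (ψ : ℕ → S) (hψ : ∀ x, Ab H e (ψ x)) {u v : Tm ℕ}
    (h : Der E u v) : ∀ a b : Option S, (∀ x ∈ a, Ab H e x) → (∀ x ∈ b, Ab H e x) →
      ctx (· * ·) a b (ev ψ u) + H e = ctx (· * ·) a b (ev ψ v) + H e := by
  induction h with
  | ax r hr σ =>
    intro a b ha hb
    have h1 := Ab.ctx G ha hb (Ab.ev G ψ hψ (bind σ r.1))
    have h2 := Ab.ctx G ha hb (Ab.ev G ψ hψ (bind σ r.2))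
    rw [(h1.add h2).eq G]
    simp only [ev, eval_bind]
    exact G.e r hr a b _ e
  | refl u => intro a b _ _; rfl
  | symm _ ih => intro a b ha hb; exact (ih a b ha hb).symm
  | trans _ _ ih1 ih2 => intro a b ha hb; exact (ih1 a b ha hb).trans (ih2 a b ha hb)
  | addL w _ ih =>
    intro a b ha hb
    simp only [eval, ctx_add]
    rw [add_right_comm, ih a b ha hb, add_right_comm]
  | addR w _ ih =>
    intro a b ha hb
    simp only [eval, ctx_add]
    rw [add_assoc, ih a b ha hb, add_assoc]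
  | mulL w _ ih =>
    intro a b ha hb
    simp only [eval, ctx_mulL]
    refine ih a _ ha ?_
    rintro x ⟨rfl⟩
    rcases b with _ | b
    · exact Ab.ev G ψ hψ w
    · exact (Ab.ev G ψ hψ w).mul G (hb b rfl)
  | mulR w _ ih =>
    intro a b ha hb
    simp only [eval, ctx_mulR]
    refine ih _ b ?_ hb
    rintro x ⟨rfl⟩
    rcases a with _ | a
    · exact Ab.ev G ψ hψ w
    · exact (ha a rfl).mul G (Ab.ev G ψ hψ w)

def Abs (E : Set (Tm ℕ × Tm ℕ)) (w : S) : Prop :=
  ∃ K : S → S, (∀ a b, Gar E fun y => ctx (· * ·) a b (K y)) ∧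
    ∃ a b, w = w + ctx (· * ·) a b (K w)

lemma gar_mul (G : Gar E H) (w z : S) : H (w * z) = H (w + z) := by
  rw [G.c, G.a, add_comm (w + z), G.a, ← G.c]

lemma Abs.add {w : S} (h : Abs E w) (z : S) : Abs E (w + z) := by
  obtain ⟨K, G, a, b, hw⟩ := h
  refine ⟨K, G, a, b, ?_⟩
  have := (G a b).d w z
  rw [add_assoc, ← this, add_comm z, ← add_assoc, ← hw]

lemma Abs.mulL {w : S} (h : Abs E w) (z : S) : Abs E (w * z) := by
  obtain ⟨K, G, a, b, hw⟩ := h
  refine ⟨K, G, a, some (b.elim z (· * z)), ?_⟩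
  have G' := G a (some (b.elim z (· * z)))
  have e : ∀ y, ctx (· * ·) a b (K y) * z = ctx (· * ·) a (some (b.elim z (· * z))) (K y) := by
    intro y; cases a <;> cases b <;> simp [ctx, mul_assoc]
  have h1 := G'.d w (w * z)
  have h2 := gar_mul G' w z
  have h3 := G'.a w z w
  have h4 := G'.b w z
  rw [h2, ← h4, show w + w + z = w + z + w by ac_rfl, ← h3, add_comm (w * z) w, ← h1, ← e,
    ← add_mul, ← hw]

lemma Abs.mulR {w : S} (h : Abs E w) (z : S) : Abs E (z * w) := by
  obtain ⟨K, G, a, b, hw⟩ := h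
  refine ⟨K, G, some (a.elim z (z * ·)), b, ?_⟩
  have G' := G (some (a.elim z (z * ·))) b
  have e : ∀ y, z * ctx (· * ·) a b (K y) = ctx (· * ·) (some (a.elim z (z * ·))) b (K y) := by
    intro y; cases a <;> cases b <;> simp [ctx, mul_assoc]
  have h1 := G'.d w (z * w)
  have h2 := gar_mul G' z w
  have h3 := G'.a z w w
  have h4 := G'.b w z
  rw [h2, add_comm z w, ← h4, show w + w + z = z + w + w by ac_rfl, ← h3, add_comm (z * w) w, ← h1,
    ← e, ← mul_add, ← hw]

lemma final (hreg : ∀ e ∈ E, Reg e.1 e.2 → SatX (B := S) (· + ·) (· * ·) e.1 e.2)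
    (hirr : ∀ e ∈ E, ¬ Reg e.1 e.2 → ∀ β : ℕ → S, Abs E (ev β e.1) ∧ Abs E (ev β e.2))
    {u v : Tm ℕ} (h : Der E u v) (hr : Reg u v) (φ : ℕ → S) : ev φ u = ev φ v := by
  classical
  have Q : ∀ {u v : Tm ℕ}, Der E u v →
      (Reg u v ∧ ev φ u = ev φ v) ∨ (Abs E (ev φ u) ∧ Abs E (ev φ v)) := by
    intro u v h
    induction h with
    | ax e he σ =>
      by_cases hR : Reg e.1 e.2
      · refine Or.inl ⟨fun x => by simp only [occ_bind, hR _], ?_⟩
        simp only [ev, eval_bind]
        exact hreg e he hR _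
      · simp only [ev, eval_bind]
        exact Or.inr (hirr e he hR _)
    | refl u => exact Or.inl ⟨fun _ => Iff.rfl, rfl⟩
    | symm _ ih => exact ih.imp (fun h => ⟨fun x => (h.1 x).symm, h.2.symm⟩) And.symm
    | trans _ _ ih1 ih2 =>
      rcases ih1 with ⟨h1, h2⟩ | ⟨h1, h2⟩ <;> rcases ih2 with ⟨h3, h4⟩ | ⟨h3, h4⟩
      · exact Or.inl ⟨fun x => (h1 x).trans (h3 x), h2.trans h4⟩
      · exact Or.inr ⟨h2 ▸ h3, h4⟩
      · exact Or.inr ⟨h1, h4 ▸ h2⟩
      · exact Or.inr ⟨h1, h4⟩
    | addL w _ ih =>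
      exact ih.imp (fun h => ⟨fun x => or_congr_left (h.1 x), congrArg (· + ev φ w) h.2⟩)
        fun h => ⟨h.1.add _, h.2.add _⟩
    | addR w _ ih =>
      refine ih.imp (fun h => ⟨fun x => or_congr_right (h.1 x), congrArg (ev φ w + ·) h.2⟩)
        fun h => ⟨?_, ?_⟩
      · simp only [eval]; rw [add_comm]; exact h.1.add _
      · simp only [eval]; rw [add_comm]; exact h.2.add _
    | mulL w _ ih =>
      exact ih.imp (fun h => ⟨fun x => or_congr_left (h.1 x), congrArg (· * ev φ w) h.2⟩)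
        fun h => ⟨h.1.mulL _, h.2.mulL _⟩
    | mulR w _ ih =>
      exact ih.imp (fun h => ⟨fun x => or_congr_right (h.1 x), congrArg (ev φ w * ·) h.2⟩)
        fun h => ⟨h.1.mulR _, h.2.mulR _⟩
  rcases Q h with h1 | ⟨⟨K, G, a, b, hu⟩, ⟨K', G', a', b', hv⟩⟩
  · exact h1.2
  obtain ⟨x0, hx0⟩ := exists_occ u
  let ψ : ℕ → S := fun n => if occ n u then φ n else φ x0
  have eu : ev ψ u = ev φ u := eval_congr _ _ _ fun x hx => if_pos hx
  have ev' : ev ψ v = ev φ v := eval_congr _ _ _ fun x hx => if_pos ((hr x).2 hx)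
  have s1 := step (G a b) (ev φ u) ψ (fun x => by
    by_cases hx : occ x u
    · simp only [ψ, if_pos hx]; exact Ab.var (G a b) φ u x hx
    · simp only [ψ, if_neg hx]; exact Ab.var (G a b) φ u x0 hx0) h none none (by simp) (by simp)
  have s2 := step (G' a' b') (ev φ v) ψ (fun x => by
    by_cases hx : occ x u
    · simp only [ψ, if_pos hx]; exact Ab.var (G' a' b') φ v x ((hr x).1 hx)
    · simp only [ψ, if_neg hx]; exact Ab.var (G' a' b') φ v x0 ((hr x0).1 hx0)) h none none
      (by simp) (by simp)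
  change ev ψ u + _ = ev ψ v + _ at s1 s2
  rw [eu, ev'] at s1 s2
  rw [← hu] at s1
  rw [← hv] at s2
  calc ev φ u = ev φ v + ctx (· * ·) a b (K (ev φ u)) := s1
    _ = ev φ u + ctx (· * ·) a' b' (K' (ev φ v)) + ctx (· * ·) a b (K (ev φ u)) := by rw [s2]
    _ = ev φ u + ctx (· * ·) a b (K (ev φ u)) + ctx (· * ·) a' b' (K' (ev φ v)) := by ac_rfl
    _ = ev φ v := by rw [← hu, s2]

end S

def v0 (i : Fin 7) : Tm V := Tm.var (Sum.inr (Sum.inr i))
def vp (n : ℕ) : Tm V := Tm.var (Sum.inl n)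
def vr (n : ℕ) : Tm V := Tm.var (Sum.inr (Sum.inl n))

def HT (h : Tm (Option ℕ)) (i j : Option Unit) (y : Tm V) : Tm V :=
  HF Tm.add Tm.mul h vp (i.map fun _ => v0 0) (j.map fun _ => v0 1) y

def cT (i j : Option Unit) (s : Tm ℕ) : Tm V :=
  ctx Tm.mul (i.map fun _ => v0 5) (j.map fun _ => v0 6) (bind vr s)

def idA (h : Tm (Option ℕ)) (i j : Option Unit) : Fin 4 → Tm V × Tm V :=
  ![(HT h i j (((v0 2).mul (v0 3)).add (v0 4)), HT h i j (((v0 2).add (v0 3)).add (v0 4))),
    (HT h i j (((v0 2).add (v0 2)).add (v0 4)), HT h i j ((v0 2).add (v0 4))),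
    (HT h i j (v0 2), HT h i j ((v0 2).add (v0 2))),
    ((v0 3).add (HT h i j (v0 2)), (v0 3).add (HT h i j ((v0 2).add (v0 3))))]

def idE (h : Tm (Option ℕ)) (i j i' j' : Option Unit) (e : Tm ℕ × Tm ℕ) : Tm V × Tm V :=
  ((cT i' j' e.1).add (HT h i j ((v0 2).add ((cT i' j' e.1).add (cT i' j' e.2)))),
   (cT i' j' e.2).add (HT h i j ((v0 2).add ((cT i' j' e.1).add (cT i' j' e.2)))))

def idR (r : Tm ℕ) (h : Tm (Option ℕ)) : Tm V × Tm V :=
  (bind vp r, (bind vp r).add (HT h none none (bind vp r)))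

def idS : Fin 5 → Tm V × Tm V :=
  ![(((v0 0).add (v0 1)).add (v0 2), (v0 0).add ((v0 1).add (v0 2))),
    ((v0 0).add (v0 1), (v0 1).add (v0 0)),
    (((v0 0).mul (v0 1)).mul (v0 2), (v0 0).mul ((v0 1).mul (v0 2))),
    ((v0 0).mul ((v0 1).add (v0 2)), ((v0 0).mul (v0 1)).add ((v0 0).mul (v0 2))),
    (((v0 0).add (v0 1)).mul (v0 2), ((v0 0).mul (v0 2)).add ((v0 1).mul (v0 2)))]

lemma opt_map {B : Type} (a : Option B) (d : B) :
    (a.map fun _ => ()).map (fun _ => a.getD d) = a := by cases a <;> rfl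

theorem main (S : Type) [Nonempty S] [AddCommSemigroup S] [Semigroup S] [LeftDistribClass S]
    [RightDistribClass S] (hS : FinBased (S := S) (· + ·) (· * ·)) :
    FinBased (S := Option S) (Option.map₂ (· + ·)) (Option.map₂ (· * ·)) := by
  classical
  obtain ⟨E, hE, hEq⟩ := hS
  have hES : ∀ e ∈ E, SatX (B := S) (· + ·) (· * ·) e.1 e.2 := (hEq S _ _).2 fun e h => h
  let RS : Set (Tm ℕ) := (Prod.fst '' E ∪ Prod.snd '' E) ∩ {r | ∃ h, Good S r h}
  have hRS : RS.Finite := ((hE.image _).union (hE.image _)).inter_of_left _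
  haveI : Finite RS := hRS
  haveI : Finite E := hE
  choose hh hg using fun r : RS => r.2.2
  let I : (RS × Option Unit × Option Unit × Fin 4) ⊕
      (RS × Option Unit × Option Unit × Option Unit × Option Unit × E) ⊕ RS ⊕ Fin 5 → Tm V × Tm V :=
    Sum.elim (fun x => idA (hh x.1) x.2.1 x.2.2.1 x.2.2.2)
      (Sum.elim (fun x => idE (hh x.1) x.2.1 x.2.2.1 x.2.2.2.1 x.2.2.2.2.1 x.2.2.2.2.2)
        (Sum.elim (fun r => idR r (hh r)) idS))
  have hind : ∀ (r : RS) (φ : V → S) i j y y', ev φ (HT (hh r) i j y) = ev φ (HT (hh r) i j y') := by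
    intro r φ i j y y'
    simp only [HT, ev, eval_HF]
    simp only [HF]
    congr 1
    exact (hg r).2.2.2 _ _ _
  have hI : ∀ x, Reg (I x).1 (I x).2 ∧ SatX (B := S) (· + ·) (· * ·) (I x).1 (I x).2 := by
    rintro (⟨r, i, j, k⟩ | ⟨r, i, j, i', j', e⟩ | r | k)
    · constructor
      · intro x
        obtain ⟨P, hP⟩ := occ_HF _ (hg r).1 vp (i.map fun _ => v0 0) (j.map fun _ => v0 1) x
        fin_cases k <;> simp only [I, Sum.elim_inl, idA, HT] <;> simp [occ, hP] <;> tauto
      · intro φ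
        fin_cases k
        · exact hind r φ i j _ _
        · exact hind r φ i j _ _
        · exact hind r φ i j _ _
        · exact congrArg (ev φ (v0 3) + ·) (hind r φ i j _ _)
    · constructor
      · intro x
        obtain ⟨P, hP⟩ := occ_HF _ (hg r).1 vp (i.map fun _ => v0 0) (j.map fun _ => v0 1) x
        simp only [I, Sum.elim_inl, Sum.elim_inr, idE, HT, occ, hP]
        tauto
      · intro φ
        simp only [I, Sum.elim_inl, Sum.elim_inr, idE, eval]
        congr 1
        simp only [cT, eval_ctx, eval_bind]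
        rw [hES e e.2]
    · constructor
      · intro x
        simp only [I, Sum.elim_inl, Sum.elim_inr, idR, HT, occ, HF, ctx, Option.map_none,
          Option.elim_none]
        refine ⟨Or.inl, ?_⟩
        rintro (h | h)
        · exact h
        · obtain ⟨_ | n, h1, h2⟩ := (occ_bind _ _ _).1 h
          · exact h2
          · exact (occ_bind _ _ _).2 ⟨n, (hg r).2.1 n h1, h2⟩
      · intro φ
        simp only [I, Sum.elim_inl, Sum.elim_inr, idR, HT, eval, eval_HF, eval_bind]
        exact ((hg r).2.2.1 _ _).symm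
    · constructor
      · intro x
        fin_cases k <;> simp only [I, Sum.elim_inr, idS] <;> simp [occ] <;> tauto
      · intro φ
        fin_cases k
        · exact add_assoc _ _ _
        · exact add_comm _ _
        · exact mul_assoc _ _ _
        · exact mul_add _ _ _
        · exact add_mul _ _ _
  refine ⟨Set.range (tr ∘ I) ∪ (E ∩ {e | Reg e.1 e.2}),
    (Set.finite_range _).union (hE.inter_of_left _), fun B p m => ⟨fun hB e he φ => ?_, ?_⟩⟩
  swap
  · rintro h _ (⟨x, rfl⟩ | ⟨he, hr⟩)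
    · exact h _ ((sat_tr _ _ _).2 ((inf_iff _ _ _ _).2 (hI x)))
    · exact h _ ((inf_iff _ _ _ _).2 ⟨hr, hES _ he⟩)
  have hB' : ∀ x, SatX p m (I x).1 (I x).2 := fun x => (sat_tr _ _ _).1 (hB _ (Or.inl ⟨x, rfl⟩))
  have ax : ∀ (k : Fin 5) (x y z : B), eval p m (Sum.elim (fun _ => x) (Sum.elim (fun _ => x)
      ![x, y, z, x, x, x, x])) (idS k).1 = eval p m (Sum.elim (fun _ => x) (Sum.elim (fun _ => x)
      ![x, y, z, x, x, x, x])) (idS k).2 := fun k x y z => hB' (Sum.inr (Sum.inr (Sum.inr k))) _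
  letI : AddCommSemigroup B :=
    { add := p, add_assoc := ax 0, add_comm := fun x y => ax 1 x y x }
  letI : Semigroup B := { mul := m, mul_assoc := ax 2 }
  haveI : LeftDistribClass B := ⟨ax 3⟩
  haveI : RightDistribClass B := ⟨ax 4⟩
  obtain ⟨hr, hs⟩ := (inf_iff (B := S) _ _ _ _).1 he
  have hD : Der E e.1 e.2 := complete E e fun B' p' m' h' => (hEq B' p' m').1 h' e hs
  refine final (S := B) (fun e he hr => hB e (Or.inr ⟨he, hr⟩)) ?_ hD hr φ
  have hG : ∀ (r : RS) (α : ℕ → B) (a b : Option B),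
      Gar E fun y => ctx (· * ·) a b (ev (fun o => o.elim y α) (hh r)) := by
    intro r α a b
    have hA : ∀ (k : Fin 4) (y z w : B), _ := fun k y z w =>
      hB' (Sum.inl (r, a.map fun _ => (), b.map fun _ => (), k))
        (Sum.elim α (Sum.elim α ![a.getD y, b.getD y, y, z, w, y, y]))
    refine ⟨fun y z w => ?_, fun y w => ?_, fun y => ?_, fun y z => ?_, ?_⟩
    · have := hA 0 y z w
      cases a <;> cases b <;> simpa [I, idA, HT, eval_HF, eval, v0, vp] using! this
    · have := hA 1 y y w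
      cases a <;> cases b <;> simpa [I, idA, HT, eval_HF, eval, v0, vp] using! this
    · have := hA 2 y y y
      cases a <;> cases b <;> simpa [I, idA, HT, eval_HF, eval, v0, vp] using! this
    · have := hA 3 y z y
      cases a <;> cases b <;> simpa [I, idA, HT, eval_HF, eval, v0, vp] using! this
    · intro e he a' b' β y
      have := hB' (Sum.inr (Sum.inl (r, a.map fun _ => (), b.map fun _ => (), a'.map fun _ => (),
        b'.map fun _ => (), ⟨e, he⟩)))
        (Sum.elim α (Sum.elim β ![a.getD y, b.getD y, y, y, y, a'.getD y, b'.getD y]))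
      cases a <;> cases b <;> cases a' <;> cases b' <;>
        simpa [I, idE, HT, cT, eval_HF, eval_ctx, eval_bind, eval, v0, vp, vr] using! this
  have hAbs : ∀ (r : RS) (β : ℕ → B), Abs E (ev β r.1) := by
    intro r β
    refine ⟨fun y => ev (fun o => o.elim y β) (hh r), hG r β, none, none, ?_⟩
    have := hB' (Sum.inr (Sum.inr (Sum.inl r))) (Sum.elim β fun _ => β 0)
    simpa [I, idR, HT, eval_HF, eval_bind, eval, vp] using! this
  intro e he hr β
  have : (∃ h, Good S e.1 h) ∧ ∃ h, Good S e.2 h := by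
    simp only [Reg, not_forall] at hr
    obtain ⟨y, hy⟩ := hr
    by_cases h1 : occ y e.1
    · exact good_both _ _ (hES e he) y h1 fun h2 => hy ⟨fun _ => h2, fun _ => h1⟩
    · exact (good_both _ _ (fun φ => (hES e he φ).symm) y
        (by by_contra h2; exact hy ⟨fun h => absurd h h1, fun h => absurd h h2⟩) h1).symm
  exact ⟨hAbs ⟨e.1, Or.inl ⟨e, he, rfl⟩, this.1⟩ β, hAbs ⟨e.2, Or.inr ⟨e, he, rfl⟩, this.2⟩ β⟩

end Pool.Agent.H.MP_cd9307_al
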